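import Pool.Agent.N929.AC.Stm

/-!
# Project AC (helper929): bounds for one family (helper186)
-/

set_option autoImplicit false
set_option linter.unusedVariables false

namespace Pool.Agent.N186.AC

open Finset Filter Topology Pool.Agent.N929.EG Pool.Agent.N929.AC
open scoped Classical

variable {α σ : Type}

/-- grouping by the length -/
theorem grp (Y : TS α σ) (F : α → ℝ) (hF : ∀ n, ∀ w ∈ Y.K n, 0 ≤ F w) (S : Finset α) (M : ℕ)
    (hS : ∀ w ∈ S, w ∈ Y.K (Y.len w) ∧ M ≤ Y.len w) (x : ℝ) (hx : 0 ≤ x)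
    (hsum : Summable (fun n => aa Y F n * x ^ n)) :
    ∑ w ∈ S, F w * x ^ Y.len w ≤ ∑' n, aa Y F (n + M) * x ^ (n + M) := by
  have hs2 : Summable (fun n => aa Y F (n + M) * x ^ (n + M)) :=
    (summable_nat_add_iff (f := fun n => aa Y F n * x ^ n) M).2 hsum
  have haa : ∀ n, 0 ≤ aa Y F n := fun n => Finset.sum_nonneg (hF n)
  have hmap : ∀ w ∈ S, (Y.len w - M) ∈ S.image (fun w => Y.len w - M) := fun w hw =>
    Finset.mem_image_of_mem _ hw
  calc ∑ w ∈ S, F w * x ^ Y.len w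
      = ∑ k ∈ S.image (fun w => Y.len w - M), ∑ w ∈ S.filter (fun w => Y.len w - M = k),
          F w * x ^ Y.len w := (Finset.sum_fiberwise_of_maps_to hmap _).symm
    _ ≤ ∑ k ∈ S.image (fun w => Y.len w - M), aa Y F (k + M) * x ^ (k + M) := by
        refine Finset.sum_le_sum (fun k _ => ?_)
        have hlen : ∀ w ∈ S.filter (fun w => Y.len w - M = k), Y.len w = k + M ∧ w ∈ Y.K (k + M) := by
          intro w hw
          rw [Finset.mem_filter] at hw
          have h1 := hS w hw.1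
          have h2 : Y.len w = k + M := by omega
          refine ⟨h2, ?_⟩
          rw [← h2]; exact h1.1
        unfold aa
        rw [Finset.sum_mul]
        calc ∑ w ∈ S.filter (fun w => Y.len w - M = k), F w * x ^ Y.len w
            = ∑ w ∈ S.filter (fun w => Y.len w - M = k), F w * x ^ (k + M) :=
              Finset.sum_congr rfl (fun w hw => by rw [(hlen w hw).1])
          _ ≤ ∑ w ∈ Y.K (k + M), F w * x ^ (k + M) := by
              refine Finset.sum_le_sum_of_subset_of_nonneg (fun w hw => (hlen w hw).2) ?_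
              intro w hw _
              exact mul_nonneg (hF _ w hw) (by positivity)
    _ ≤ ∑' n, aa Y F (n + M) * x ^ (n + M) :=
        hs2.sum_le_tsum _ (fun n _ => mul_nonneg (haa _) (by positivity))

theorem norm_sum_le' (Y : TS α σ) (F : α → ℝ) (S : Finset α) (hS : ∀ w ∈ S, 0 ≤ F w) (z : ℂ) :
    ‖∑ w ∈ S, (F w : ℂ) * z ^ Y.len w‖ ≤ ∑ w ∈ S, F w * ‖z‖ ^ Y.len w := by
  refine (norm_sum_le _ _).trans (Finset.sum_le_sum (fun w hw => ?_))
  rw [norm_mul, norm_pow, Complex.norm_real, Real.norm_eq_abs, abs_of_nonneg (hS w hw)]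

theorem bnd (hexp : S_EXP) : S_BND := by
  intro α σ Y F hinv hF L hL N z x hx hsum
  obtain ⟨T, hT1, hT2, hT3⟩ := hexp α σ Y F hinv L hL N
  have hTF : ∀ w ∈ T, 0 ≤ F w := fun w hw => hF _ w (hT1 w hw)
  have hTx : ∑ w ∈ T, F w * x ^ Y.len w ≤ ∑' n, aa Y F n * x ^ n := by
    have := grp Y F hF T 0 (fun w hw => ⟨hT1 w hw, Nat.zero_le _⟩) x hx hsum
    simpa only [Nat.add_zero] using this
  constructor
  · intro hz
    rw [hT3]
    refine (norm_sum_le' Y F T hTF z).trans (le_trans (Finset.sum_le_sum (fun w hw => ?_)) hTx)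
    exact mul_le_mul_of_nonneg_left (pow_le_pow_left₀ (norm_nonneg _) hz _) (hTF w hw)
  · intro c₀ δ hc₀ hδ h1 h2
    have hCo : ∀ w ∈ Co Y L N, w ∈ Y.K (Y.len w) ∧ Y.len w ≤ N := by
      intro w hw
      unfold Co at hw
      rw [Finset.mem_filter, Finset.mem_biUnion] at hw
      obtain ⟨⟨m, hm, hwm⟩, _⟩ := hw
      have hl := Y.len_K m w hwm
      rw [Finset.mem_range] at hm
      rw [hl]
      exact ⟨hwm, by omega⟩
    have hCoF : ∀ w ∈ Co Y L N, 0 ≤ F w := fun w hw => hF _ w (hCo w hw).1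
    -- the real version of `S_EXP`
    have hreal : ∑ w ∈ Co Y L N, F w * x ^ Y.len w * (1 + x ^ Y.s) ^ (Sl Y L w).card =
        ∑ w ∈ T, F w * x ^ Y.len w := by
      have h3 := hT3 (x : ℂ)
      unfold PL at h3
      have h4 : ((∑ w ∈ Co Y L N, F w * x ^ Y.len w * (1 + x ^ Y.s) ^ (Sl Y L w).card : ℝ) : ℂ) =
          ((∑ w ∈ T, F w * x ^ Y.len w : ℝ) : ℂ) := by
        push_cast
        exact h3
      exact Complex.ofReal_injective h4
    set B : ℝ := ‖z‖ * (1 + ‖z‖ ^ Y.s) ^ c₀ with hB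
    have hB0 : 0 ≤ B := by positivity
    have hterm : ∀ w ∈ Co Y L N, ‖(F w : ℂ) * z ^ Y.len w * (1 + z ^ Y.s) ^ (Sl Y L w).card‖ ≤
        F w * x ^ Y.len w * (1 + x ^ Y.s) ^ (Sl Y L w).card +
        (if ((Sl Y L w).card : ℝ) < c₀ * Y.len w then F w * B ^ Y.len w else 0) := by
      intro w hw
      have hFw := hCoF w hw
      rw [norm_mul, norm_mul, norm_pow, norm_pow, Complex.norm_real, Real.norm_eq_abs,
        abs_of_nonneg hFw]
      have hx1 : 0 ≤ F w * x ^ Y.len w * (1 + x ^ Y.s) ^ (Sl Y L w).card := by positivity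
      set l := Y.len w with hl
      set k := (Sl Y L w).card with hk
      split_ifs with hlt
      · have e1 : ‖1 + z ^ Y.s‖ ≤ 1 + ‖z‖ ^ Y.s := by
          refine (norm_add_le _ _).trans ?_
          rw [norm_one, norm_pow]
        have hbase : 1 ≤ 1 + ‖z‖ ^ Y.s := by
          have : 0 ≤ ‖z‖ ^ Y.s := by positivity
          linarith
        have e2 : ‖1 + z ^ Y.s‖ ^ k ≤ ((1 + ‖z‖ ^ Y.s) ^ c₀) ^ l := by
          calc ‖1 + z ^ Y.s‖ ^ k ≤ (1 + ‖z‖ ^ Y.s) ^ k := pow_le_pow_left₀ (norm_nonneg _) e1 _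
            _ = (1 + ‖z‖ ^ Y.s) ^ (k : ℝ) := (Real.rpow_natCast _ _).symm
            _ ≤ (1 + ‖z‖ ^ Y.s) ^ (c₀ * l) := Real.rpow_le_rpow_of_exponent_le hbase hlt.le
            _ = ((1 + ‖z‖ ^ Y.s) ^ c₀) ^ l := by
                rw [Real.rpow_mul (by linarith), Real.rpow_natCast]
        have e3 : F w * ‖z‖ ^ l * ‖1 + z ^ Y.s‖ ^ k ≤ F w * B ^ l := by
          rw [hB, mul_pow, mul_assoc]
          gcongr
        linarith
      · have hge : c₀ * l ≤ k := not_lt.1 hlt
        rw [add_zero]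
        have e1 : ‖z‖ ^ l ≤ (x * Real.exp (c₀ * δ)) ^ l := pow_le_pow_left₀ (norm_nonneg _) h1 _
        have e2 : ‖1 + z ^ Y.s‖ ^ k ≤ ((1 + x ^ Y.s) * Real.exp (-δ)) ^ k :=
          pow_le_pow_left₀ (norm_nonneg _) h2 _
        have e4 : Real.exp (c₀ * δ) ^ l * Real.exp (-δ) ^ k ≤ 1 := by
          rw [← Real.exp_nat_mul, ← Real.exp_nat_mul, ← Real.exp_add]
          rw [Real.exp_le_one_iff]
          have : c₀ * l * δ ≤ k * δ := mul_le_mul_of_nonneg_right hge hδ
          linarith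
        calc F w * ‖z‖ ^ l * ‖1 + z ^ Y.s‖ ^ k
            ≤ F w * (x * Real.exp (c₀ * δ)) ^ l * ((1 + x ^ Y.s) * Real.exp (-δ)) ^ k := by
              gcongr
          _ = F w * x ^ l * (1 + x ^ Y.s) ^ k * (Real.exp (c₀ * δ) ^ l * Real.exp (-δ) ^ k) := by
              rw [mul_pow, mul_pow]; ring
          _ ≤ F w * x ^ l * (1 + x ^ Y.s) ^ k * 1 := mul_le_mul_of_nonneg_left e4 hx1
          _ = _ := mul_one _
    have hsec : ∑ w ∈ Co Y L N,
        (if ((Sl Y L w).card : ℝ) < c₀ * Y.len w then F w * B ^ Y.len w else 0) ≤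
        ∑ m ∈ range (N + 1), ∑ w ∈ (Y.K m).filter
          (fun w => ((Sl Y L w).card : ℝ) < c₀ * m), F w * B ^ m := by
      rw [← Finset.sum_filter]
      have hdisj : Set.PairwiseDisjoint (↑(range (N + 1)) : Set ℕ) (fun m => (Y.K m).filter
          (fun w => ((Sl Y L w).card : ℝ) < c₀ * m)) := by
        intro m _ m' _ hne
        rw [Function.onFun, Finset.disjoint_left]
        intro w hw hw'
        rw [Finset.mem_filter] at hw hw'
        exact hne ((Y.len_K m w hw.1).symm.trans (Y.len_K m' w hw'.1))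
      have hinner : ∑ m ∈ range (N + 1), ∑ w ∈ (Y.K m).filter
          (fun w => ((Sl Y L w).card : ℝ) < c₀ * m), F w * B ^ m =
          ∑ w ∈ (range (N + 1)).biUnion (fun m => (Y.K m).filter
          (fun w => ((Sl Y L w).card : ℝ) < c₀ * m)), F w * B ^ Y.len w := by
        rw [Finset.sum_biUnion hdisj]
        refine Finset.sum_congr rfl (fun m _ => Finset.sum_congr rfl (fun w hw => ?_))
        rw [Y.len_K m w (Finset.mem_filter.1 hw).1]
      rw [hinner]
      refine Finset.sum_le_sum_of_subset_of_nonneg ?_ ?_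
      · intro w hw
        rw [Finset.mem_filter] at hw
        obtain ⟨hw1, hw2⟩ := hCo w hw.1
        rw [Finset.mem_biUnion]
        exact ⟨Y.len w, Finset.mem_range.2 (by omega), Finset.mem_filter.2 ⟨hw1, hw.2⟩⟩
      · intro w hw _
        rw [Finset.mem_biUnion] at hw
        obtain ⟨m, _, hw⟩ := hw
        exact mul_nonneg (hF m w (Finset.mem_filter.1 hw).1) (by positivity)
    unfold PL
    calc ‖∑ w ∈ Co Y L N, (F w : ℂ) * z ^ Y.len w * (1 + z ^ Y.s) ^ (Sl Y L w).card‖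
        ≤ ∑ w ∈ Co Y L N, ‖(F w : ℂ) * z ^ Y.len w * (1 + z ^ Y.s) ^ (Sl Y L w).card‖ :=
          norm_sum_le _ _
      _ ≤ ∑ w ∈ Co Y L N, (F w * x ^ Y.len w * (1 + x ^ Y.s) ^ (Sl Y L w).card +
        (if ((Sl Y L w).card : ℝ) < c₀ * Y.len w then F w * B ^ Y.len w else 0)) :=
          Finset.sum_le_sum hterm
      _ = ∑ w ∈ Co Y L N, F w * x ^ Y.len w * (1 + x ^ Y.s) ^ (Sl Y L w).card +
        ∑ w ∈ Co Y L N, (if ((Sl Y L w).card : ℝ) < c₀ * Y.len w then F w * B ^ Y.len w else 0) :=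
          Finset.sum_add_distrib
      _ ≤ _ := by
          rw [hreal]
          exact add_le_add hTx hsec

theorem cnv (hexp : S_EXP) : S_CNV := by
  intro α σ Y F hinv hF L hL N z hsum
  obtain ⟨T, hT1, hT2, hT3⟩ := hexp α σ Y F hinv L hL N
  have hTF : ∀ w ∈ T, 0 ≤ F w := fun w hw => hF _ w (hT1 w hw)
  have hlow : ∑ n ∈ range (N + 1), (aa Y F n : ℂ) * z ^ n =
      ∑ w ∈ T.filter (fun w => Y.len w ≤ N), (F w : ℂ) * z ^ Y.len w := by
    have hset : T.filter (fun w => Y.len w ≤ N) = (range (N + 1)).biUnion Y.K := by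
      ext w
      rw [Finset.mem_filter, Finset.mem_biUnion]
      constructor
      · rintro ⟨h1, h2⟩
        exact ⟨Y.len w, Finset.mem_range.2 (by omega), hT1 w h1⟩
      · rintro ⟨m, hm, hw⟩
        rw [Finset.mem_range] at hm
        rw [Y.len_K m w hw]
        exact ⟨hT2 m (by omega) hw, by omega⟩
    have hdisj : Set.PairwiseDisjoint (↑(range (N + 1)) : Set ℕ) Y.K := by
      intro m _ m' _ hne
      rw [Function.onFun, Finset.disjoint_left]
      intro w hw hw'
      exact hne ((Y.len_K m w hw).symm.trans (Y.len_K m' w hw'))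
    rw [hset, Finset.sum_biUnion hdisj]
    refine Finset.sum_congr rfl (fun m _ => ?_)
    unfold aa
    push_cast
    rw [Finset.sum_mul]
    refine Finset.sum_congr rfl (fun w hw => ?_)
    rw [Y.len_K m w hw]
  rw [hT3, hlow, ← Finset.sum_filter_add_sum_filter_not T (fun w => Y.len w ≤ N), add_sub_cancel_left]
  refine (norm_sum_le' Y F _ (fun w hw => hTF w (Finset.mem_filter.1 hw).1) z).trans ?_
  refine grp Y F hF _ (N + 1) (fun w hw => ?_) ‖z‖ (norm_nonneg z) hsum
  rw [Finset.mem_filter] at hw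
  exact ⟨hT1 w hw.1, by omega⟩

end Pool.Agent.N186.AC
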